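import Mathlib

/-!
# Operators commuting with an operator whose characteristic polynomial is irreducible
-/

open Polynomial Finset Module

namespace Pool.Agent.Q56.AN

section Diag

variable {L : Type*} [Field L] {T : Type*} [AddCommGroup T] [Module L T] {d : ℕ}

/-- An operator commuting with a diagonal operator with distinct eigenvalues is diagonal. -/
lemma diag_of_commute (b : Basis (Fin d) L T) {G u : Module.End L T} {x : Fin d → L}
    (hx : Function.Injective x) (hG : ∀ i, G (b i) = x i • b i) (hu : Commute u G) :
    ∃ y : Fin d → L, ∀ i, u (b i) = y i • b i := by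
  refine ⟨fun i => b.repr (u (b i)) i, fun i => ?_⟩
  have hGr : ∀ a j, b.repr (G a) j = x j * b.repr a j := by
    intro a j
    conv_lhs => rw [← b.sum_repr a]
    rw [map_sum, map_sum, Finsupp.finsetSum_apply, Finset.sum_eq_single j]
    · rw [map_smul, hG, smul_smul, map_smul, Finsupp.smul_apply, b.repr_self,
        Finsupp.single_eq_same, smul_eq_mul, mul_one, mul_comm]
    · intro l _ hl
      rw [map_smul, hG, smul_smul, map_smul, Finsupp.smul_apply, b.repr_self,
        Finsupp.single_eq_of_ne (Ne.symm hl), smul_zero]
    · intro h; exact absurd (Finset.mem_univ _) h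
  apply b.repr.injective
  ext j
  rw [map_smul, b.repr_self, Finsupp.smul_apply, smul_eq_mul]
  by_cases hij : i = j
  · subst hij; rw [Finsupp.single_eq_same, mul_one]
  · rw [Finsupp.single_eq_of_ne (Ne.symm hij), mul_zero]
    have h1 : u (G (b i)) = G (u (b i)) := congrArg (fun F => F (b i)) hu.eq
    rw [hG, map_smul] at h1
    have h2 := congrArg (fun a => b.repr a j) h1
    simp only [map_smul, Finsupp.smul_apply, smul_eq_mul] at h2
    rw [hGr] at h2
    have h3 : (x i - x j) * b.repr (u (b i)) j = 0 := by rw [sub_mul, h2, sub_self]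
    rcases mul_eq_zero.1 h3 with h | h
    · exact absurd (hx (sub_eq_zero.1 h)) hij
    · exact h

lemma trace_diag (b : Basis (Fin d) L T) {v : Module.End L T} {y : Fin d → L}
    (hv : ∀ i, v (b i) = y i • b i) : LinearMap.trace L T v = ∑ i, y i := by
  rw [LinearMap.trace_eq_matrix_trace L b, Matrix.trace]
  apply Finset.sum_congr rfl
  intro i _
  rw [Matrix.diag_apply, LinearMap.toMatrix_apply, hv, map_smul, b.repr_self,
    Finsupp.smul_apply, Finsupp.single_eq_same, smul_eq_mul, mul_one]

lemma pow_diag (b : Basis (Fin d) L T) {v : Module.End L T} {y : Fin d → L}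
    (hv : ∀ i, v (b i) = y i • b i) (r : ℕ) : ∀ i, (v ^ r) (b i) = y i ^ r • b i := by
  intro i
  induction r with
  | zero => simp
  | succ r ih => rw [pow_succ, Module.End.mul_apply, hv, map_smul, ih, smul_smul, pow_succ']

lemma aeval_diag {K : Type*} [Field K] [Algebra K L] [Module K T] [IsScalarTower K L T]
    (b : Basis (Fin d) L T) {v : Module.End L T} {y : Fin d → L}
    (hv : ∀ i, v (b i) = y i • b i) (h : K[X]) (i : Fin d) :
    aeval v h (b i) = aeval (y i) h • b i := by
  induction h using Polynomial.induction_on' with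
  | add a c ha hc => rw [map_add, map_add, LinearMap.add_apply, ha, hc, add_smul]
  | monomial r c =>
    rw [aeval_monomial, aeval_monomial, Algebra.algebraMap_eq_smul_one, smul_mul_assoc, one_mul,
      LinearMap.smul_apply, pow_diag b hv r, Algebra.algebraMap_eq_smul_one, smul_mul_assoc,
      one_mul, smul_assoc]

/-- Rational power sums determine rational interpolation polynomials. -/
lemma exists_interp [CharZero L] {x y : Fin d → L} (hx : Function.Injective x)
    (hp : ∀ r : ℕ, ∃ q : ℚ, ∑ i, x i ^ r = q) (ht : ∀ r : ℕ, ∃ q : ℚ, ∑ i, y i * x i ^ r = q) :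
    ∃ g : ℚ[X], ∀ i, y i = aeval (x i) g := by
  choose p hp using hp
  choose t ht using ht
  set V := Matrix.vandermonde x with hV
  have hVdet : V.det ≠ 0 := Matrix.det_vandermonde_ne_zero_iff.2 hx
  set H : Matrix (Fin d) (Fin d) ℚ := Matrix.of (fun j r => p (j + r)) with hH
  have hHV : H.map (algebraMap ℚ L) = V.transpose * V := by
    ext j r
    rw [Matrix.map_apply, Matrix.mul_apply, hH, Matrix.of_apply, eq_ratCast, ← hp]
    apply Finset.sum_congr rfl
    intro i _
    rw [Matrix.transpose_apply, hV, Matrix.vandermonde_apply, Matrix.vandermonde_apply, pow_add]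
  have hHdet : H.det ≠ 0 := by
    intro h
    have h1 : (H.map (algebraMap ℚ L)).det = 0 := by
      have := (algebraMap ℚ L).map_det H
      rw [h, map_zero] at this
      exact this.symm
    rw [hHV, Matrix.det_mul, Matrix.det_transpose] at h1
    exact (mul_ne_zero hVdet hVdet) h1
  have hHu : IsUnit H.det := isUnit_iff_ne_zero.2 hHdet
  set tv : Fin d → ℚ := fun r => t (r : ℕ) with htv
  set g : Fin d → ℚ := H⁻¹.mulVec tv with hg
  have hgH : ∀ r : Fin d, ∑ j, H r j * g j = t (r : ℕ) := by
    intro r
    have : H.mulVec g = tv := by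
      rw [hg, Matrix.mulVec_mulVec, Matrix.mul_nonsing_inv H hHu, Matrix.one_mulVec]
    exact congrFun this r
  refine ⟨∑ j, C (g j) * X ^ (j : ℕ), ?_⟩
  have key : ∀ i, (∑ j, (g j : L) * x i ^ (j : ℕ)) - y i = 0 := by
    have h1 : V.transpose.mulVec (fun i => (∑ j, (g j : L) * x i ^ (j : ℕ)) - y i) = 0 := by
      ext r
      rw [Matrix.mulVec, dotProduct, Pi.zero_apply]
      simp only [Matrix.transpose_apply, hV, Matrix.vandermonde_apply, mul_sub]
      rw [Finset.sum_sub_distrib, sub_eq_zero]
      have e1 : ∑ i, x i ^ (r : ℕ) * y i = t r := by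
        rw [← ht]; exact Finset.sum_congr rfl (fun i _ => mul_comm _ _)
      rw [e1, ← hgH r]
      push_cast
      simp only [Finset.mul_sum]
      rw [Finset.sum_comm]
      apply Finset.sum_congr rfl
      intro j _
      rw [hH, Matrix.of_apply, ← hp, Finset.sum_mul]
      apply Finset.sum_congr rfl
      intro i _
      rw [pow_add]; ring
    have h2 : V.transpose.det ≠ 0 := by rw [Matrix.det_transpose]; exact hVdet
    have h3 := Matrix.eq_zero_of_mulVec_eq_zero h2 h1
    intro i
    exact congrFun h3 i
  intro i
  have := key i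
  rw [sub_eq_zero] at this
  rw [← this, map_sum]
  apply Finset.sum_congr rfl
  intro j _
  simp

end Diag

variable {K : Type*} [Field K] [CharZero K] {T : Type*} [AddCommGroup T] [Module K T]
  [Module.Finite K T]

omit [CharZero K] [Module.Finite K T] in
lemma baseChange_aeval {L : Type*} [Field L] [Algebra K L] (G : Module.End K T) (g : K[X]) :
    LinearMap.baseChange L (aeval G g) = aeval (LinearMap.baseChange L G) g := by
  induction g using Polynomial.induction_on' with
  | add a b ha hb => rw [map_add, map_add, LinearMap.baseChange_add, ha, hb]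
  | monomial r c =>
    rw [aeval_monomial, aeval_monomial, Algebra.algebraMap_eq_smul_one, smul_mul_assoc, one_mul,
      LinearMap.baseChange_smul, LinearMap.baseChange_pow, Algebra.algebraMap_eq_smul_one,
      smul_mul_assoc, one_mul]

/-- An operator commuting with an operator `G` whose characteristic polynomial is rational and
irreducible over `ℚ` is a rational polynomial in `G` if its traces against the powers of `G` are
rational. -/
theorem exists_poly {G u : Module.End K T} (huG : Commute u G) {Q : ℚ[X]} (hQ : Irreducible Q)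
    (hG : G.charpoly = Q.map (algebraMap ℚ K))
    (hp : ∀ r : ℕ, ∃ q : ℚ, LinearMap.trace K T (G ^ r) = q)
    (ht : ∀ r : ℕ, ∃ q : ℚ, LinearMap.trace K T (u * G ^ r) = q) :
    ∃ g : ℚ[X], u = aeval G (g.map (algebraMap ℚ K)) := by
  classical
  set L := AlgebraicClosure K with hL
  set d := Module.finrank K T with hd
  set T' := TensorProduct K L T with hT'
  set G' : Module.End L T' := LinearMap.baseChange L G with hG'
  set u' : Module.End L T' := LinearMap.baseChange L u with hu'
  have hQd : Q.natDegree = d := by
    have := G.charpoly_natDegree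
    rw [hG, natDegree_map] at this
    exact this
  have hfr : Module.finrank L T' = d := Module.finrank_baseChange
  have hcard : Fintype.card (Q.rootSet L) = d := by
    rw [card_rootSet_eq_natDegree hQ.separable (IsAlgClosed.splits _), hQd]
  set e : Fin d ≃ Q.rootSet L := (Fintype.equivFinOfCardEq hcard).symm with he
  set x : Fin d → L := fun i => (e i : L) with hx
  have hxinj : Function.Injective x := fun i j h => e.injective (Subtype.ext h)
  have hcp : G'.charpoly = Q.map (algebraMap ℚ L) := by
    rw [hG', LinearMap.charpoly_baseChange, hG, Polynomial.map_map]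
    congr 1
  have hev : ∀ i, ∃ v, Module.End.HasEigenvector G' (x i) v := by
    intro i
    have h1 : G'.charpoly.IsRoot (x i) := by
      rw [hcp, IsRoot.def, eval_map_algebraMap]
      exact (mem_rootSet.1 (e i).2).2
    exact ((Module.End.hasEigenvalue_iff_isRoot_charpoly G' (x i)).2 h1).exists_hasEigenvector
  choose v hv using hev
  have hlin := Module.End.eigenvectors_linearIndependent' G' x hxinj v hv
  rcases Nat.eq_zero_or_pos d with hd0 | hdpos
  · refine ⟨0, ?_⟩
    have : Subsingleton T := Module.finrank_zero_iff.1 (hd ▸ hd0)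
    apply LinearMap.ext
    intro a
    exact Subsingleton.elim _ _
  have : Nonempty (Fin d) := ⟨⟨0, hdpos⟩⟩
  set b : Basis (Fin d) L T' := basisOfLinearIndependentOfCardEqFinrank hlin
    (by rw [Fintype.card_fin, hfr]) with hb
  have hbv : ∀ i, b i = v i := fun i => by
    rw [hb, coe_basisOfLinearIndependentOfCardEqFinrank]
  have hGb : ∀ i, G' (b i) = x i • b i := fun i => by
    rw [hbv]; exact (hv i).apply_eq_smul
  have hcomm : Commute u' G' := by
    rw [hu', hG']
    change _ * _ = _ * _
    rw [← LinearMap.baseChange_mul, huG.eq, LinearMap.baseChange_mul]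
  obtain ⟨y, hy⟩ := diag_of_commute b hxinj hGb hcomm
  have hp' : ∀ r : ℕ, ∃ q : ℚ, ∑ i, x i ^ r = q := by
    intro r
    obtain ⟨q, hq⟩ := hp r
    refine ⟨q, ?_⟩
    rw [← trace_diag b (pow_diag b hGb r), hG', ← LinearMap.baseChange_pow,
      LinearMap.trace_baseChange, hq]
    simp
  have ht' : ∀ r : ℕ, ∃ q : ℚ, ∑ i, y i * x i ^ r = q := by
    intro r
    obtain ⟨q, hq⟩ := ht r
    refine ⟨q, ?_⟩
    have h1 : ∀ i, (u' * G' ^ r) (b i) = (y i * x i ^ r) • b i := by
      intro i
      rw [Module.End.mul_apply, pow_diag b hGb r, map_smul, hy, smul_smul, mul_comm]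
    rw [← trace_diag b h1, hG', hu', ← LinearMap.baseChange_pow, ← LinearMap.baseChange_mul,
      LinearMap.trace_baseChange, hq]
    simp
  obtain ⟨g, hg⟩ := exists_interp hxinj hp' ht'
  refine ⟨g, ?_⟩
  have hinj : Function.Injective (LinearMap.baseChangeHom K L T T) :=
    LinearMap.baseChangeHom_injective K T L
  apply hinj
  change LinearMap.baseChange L u = LinearMap.baseChange L _
  rw [baseChange_aeval]
  apply b.ext
  intro i
  change u' (b i) = aeval G' _ (b i)
  rw [hy, hg, aeval_diag (K := K) b hGb, aeval_map_algebraMap]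

end Pool.Agent.Q56.AN
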